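import Pool.Agent.Y767.HC.Stm3

/-!
# Representatives of the narrow ideal classes

Part REP of the project on Hecke characters of infinite order (owner helper767), by helper629.
-/

set_option autoImplicit false

open NumberField

namespace Pool.Agent.Y629.HC

open Pool.Agent.Y773 (TPos)
open Pool.Agent.Y767 (StRep)
open scoped nonZeroDivisors

theorem t_rep : StRep := by
  intro K _ _ _
  classical
  have hc : ∀ C : ClassGroup (𝓞 K), ∃ I : (Ideal (𝓞 K))⁰, ClassGroup.mk0 I = C :=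
    fun C => ClassGroup.mk0_surjective C
  choose c hc using hc
  let P : ((K →+* ℝ) → Bool) → 𝓞 K → Prop := fun e x =>
    x ≠ 0 ∧ ∀ σ : K →+* ℝ, 0 < σ (x : K) ↔ e σ = true
  have hz : ∀ e : (K →+* ℝ) → Bool, ∃ z : 𝓞 K, z ≠ 0 ∧ ((∃ x, P e x) → P e z) := by
    intro e
    by_cases h : ∃ x, P e x
    · obtain ⟨x, hx⟩ := h
      exact ⟨x, hx.1, fun _ => hx⟩
    · exact ⟨1, one_ne_zero, fun h' => absurd h' h⟩
  choose z hz0 hz using hz
  refine ⟨Finset.univ.image (fun p : ClassGroup (𝓞 K) × ((K →+* ℝ) → Bool) =>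
    (c p.1 : Ideal (𝓞 K)) * Ideal.span {z p.2}), ?_, ?_⟩
  · intro 𝔟 h𝔟
    rw [Finset.mem_image] at h𝔟
    obtain ⟨p, -, rfl⟩ := h𝔟
    have h1 : (c p.1 : Ideal (𝓞 K)) ≠ 0 := nonZeroDivisors.ne_zero (c p.1).2
    have h2 : Ideal.span {z p.2} ≠ 0 := by
      rw [Ne, Ideal.zero_eq_bot, Ideal.span_singleton_eq_bot]
      exact hz0 p.2
    exact mul_ne_zero h1 h2
  · intro 𝔞 h𝔞
    have ha0 : 𝔞 ∈ (Ideal (𝓞 K))⁰ := mem_nonZeroDivisors_of_ne_zero h𝔞
    set I : (Ideal (𝓞 K))⁰ := ⟨𝔞, ha0⟩ with hI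
    set C : ClassGroup (𝓞 K) := (ClassGroup.mk0 I)⁻¹ with hC
    have h1 : ClassGroup.mk0 (I * c C) = 1 := by
      rw [map_mul, hc C, hC, mul_inv_cancel]
    have h2 : (𝔞 * (c C : Ideal (𝓞 K))).IsPrincipal := by
      have := (ClassGroup.mk0_eq_one_iff (I * c C).2).1 h1
      exact this
    obtain ⟨x, hx⟩ := h2.principal
    have hx' : 𝔞 * (c C : Ideal (𝓞 K)) = Ideal.span {x} := hx
    have hx0 : x ≠ 0 := by
      rintro rfl
      have h3 : 𝔞 * (c C : Ideal (𝓞 K)) = 0 := by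
        rw [hx', Ideal.zero_eq_bot, Ideal.span_singleton_eq_bot]
      rcases mul_eq_zero.1 h3 with h | h
      · exact h𝔞 h
      · exact nonZeroDivisors.ne_zero (c C).2 h
    let e : (K →+* ℝ) → Bool := fun σ => decide (0 < σ (x : K))
    have hPx : P e x := ⟨hx0, fun σ => by simp [e]⟩
    have hPz : P e (z e) := hz e ⟨x, hPx⟩
    refine ⟨(c C : Ideal (𝓞 K)) * Ideal.span {z e},
      Finset.mem_image.2 ⟨(C, e), Finset.mem_univ _, rfl⟩, x * z e, ?_, ?_⟩
    · intro σ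
      have hxs : σ (x : K) ≠ 0 := by
        rw [Ne, map_eq_zero]
        exact RingOfIntegers.coe_ne_zero_iff.2 hx0
      have hzs : σ ((z e : 𝓞 K) : K) ≠ 0 := by
        rw [Ne, map_eq_zero]
        exact RingOfIntegers.coe_ne_zero_iff.2 (hz0 e)
      have hmul : σ (((x * z e : 𝓞 K)) : K) = σ (x : K) * σ ((z e : 𝓞 K) : K) := by
        have h0 : (((x * z e : 𝓞 K)) : K) = (x : K) * ((z e : 𝓞 K) : K) := rfl
        rw [h0, map_mul]
      rw [hmul]
      have h3 : 0 < σ (x : K) ↔ 0 < σ ((z e : 𝓞 K) : K) :=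
        (hPx.2 σ).trans (hPz.2 σ).symm
      rcases lt_or_gt_of_ne hxs with h | h
      · have h4 : σ ((z e : 𝓞 K) : K) < 0 := by
          rcases lt_or_gt_of_ne hzs with h5 | h5
          · exact h5
          · exact absurd (h3.2 h5) (not_lt.2 h.le)
        exact mul_pos_of_neg_of_neg h h4
      · exact mul_pos h (h3.1 h)
    · rw [← mul_assoc, hx', Ideal.span_singleton_mul_span_singleton]

end Pool.Agent.Y629.HC
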